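import Pool.Agent.Helper22.TL.Spec

set_option autoImplicit false

/-! # TL, part LOC2: local sections outside the skeleton of codimension three -/

namespace TL

open Set

namespace Loc2

variable {d : ℕ} {Fl : Type} {W : Type} [Group W]

/-- walking along a word -/
def walk (nb : Fin (d + 1) → Fl → Fl) : List (Fin (d + 1)) → Fl → Fl
  | [], Φ => Φ
  | k :: l, Φ => walk nb l (nb k Φ)

theorem walk_append (nb : Fin (d + 1) → Fl → Fl) (l l' : List (Fin (d + 1))) (Φ : Fl) :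
    walk nb (l ++ l') Φ = walk nb l' (walk nb l Φ) := by
  induction l generalizing Φ with
  | nil => rfl
  | cons k l ih => exact ih (nb k Φ)

theorem walk_reverse (nb : Fin (d + 1) → Fl → Fl) (hnb : ∀ k Φ, nb k (nb k Φ) = Φ)
    (l : List (Fin (d + 1))) (Φ : Fl) : walk nb l.reverse (walk nb l Φ) = Φ := by
  induction l generalizing Φ with
  | nil => rfl
  | cons k l ih =>
    rw [List.reverse_cons, walk_append]
    show walk nb [k] (walk nb l.reverse (walk nb l (nb k Φ))) = Φ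
    rw [ih]
    exact hnb k Φ

theorem prod_reverse (s : Fin (d + 1) → W) (hs : ∀ k, s k * s k = 1) (l : List (Fin (d + 1))) :
    (l.map s).prod * (l.reverse.map s).prod = 1 := by
  induction l with
  | nil => simp
  | cons k l ih =>
    rw [List.reverse_cons, List.map_append, List.prod_append, List.map_cons, List.prod_cons,
      List.map_singleton, List.prod_singleton]
    rw [mul_assoc, ← mul_assoc _ _ (s k), ih, one_mul, hs]

/-- the normal form of a word in two involutions -/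
theorem norm_form (nb : Fin (d + 1) → Fl → Fl) (s : Fin (d + 1) → W) (hs : ∀ k, s k * s k = 1)
    (i j : Fin (d + 1)) (P Q : Equiv.Perm Fl) (hP : ∀ Φ, P Φ = nb i Φ) (hQ : ∀ Φ, Q Φ = nb j Φ)
    (hPP : P * P = 1) (hQQ : Q * Q = 1)
    (l : List (Fin (d + 1))) (hl : ∀ k ∈ l, k = i ∨ k = j) :
    ∃ n : ℤ, ((∀ Φ, walk nb l Φ = ((Q * P) ^ n) Φ) ∧ (l.map s).prod = (s i * s j) ^ n) ∨
      ((∀ Φ, walk nb l Φ = (P * (Q * P) ^ n) Φ) ∧ (l.map s).prod = (s i * s j) ^ n * s i) := by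
  induction l using List.reverseRecOn with
  | nil => exact ⟨0, Or.inl ⟨fun Φ => by simp [walk], by simp⟩⟩
  | append_singleton l k ih =>
    obtain ⟨n, h⟩ := ih fun k' hk' => hl k' (List.mem_append_left _ hk')
    have hk := hl k (by simp)
    have e1 : ∀ Φ, walk nb (l ++ [k]) Φ = nb k (walk nb l Φ) := fun Φ => walk_append nb l [k] Φ
    have e2 : ((l ++ [k]).map s).prod = (l.map s).prod * s k := by simp
    rcases h with ⟨h1, h2⟩ | ⟨h1, h2⟩ <;> rcases hk with rfl | rfl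
    · refine ⟨n, Or.inr ⟨fun Φ => ?_, by rw [e2, h2]⟩⟩
      rw [e1, h1, ← hP]; rfl
    · refine ⟨n - 1, Or.inr ⟨fun Φ => ?_, ?_⟩⟩
      · rw [e1, h1, ← hQ]
        have : P * (Q * P) ^ (n - 1) = Q * (Q * P) ^ n := by
          have h3 : (Q * P) * (Q * P) ^ (n - 1) = (Q * P) ^ n := by
            rw [← zpow_one_add]; congr 1; ring
          rw [← h3, ← mul_assoc Q (Q * P), ← mul_assoc Q Q P, hQQ, one_mul]
        rw [this]; rfl
      · rw [e2, h2]
        have h3 : (s i * s k) ^ (n - 1) * (s i * s k) = (s i * s k) ^ n := by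
          rw [← zpow_add_one]; congr 1; ring
        rw [← h3, mul_assoc ((s i * s k) ^ (n - 1)), mul_assoc (s i), hs, mul_one]
    · refine ⟨n, Or.inl ⟨fun Φ => ?_, ?_⟩⟩
      · rw [e1, h1, ← hP]
        have : P ((P * (Q * P) ^ n) Φ) = ((P * P) * (Q * P) ^ n) Φ := rfl
        rw [this, hPP, one_mul]
      · rw [e2, h2, mul_assoc, hs, mul_one]
    · refine ⟨n + 1, Or.inl ⟨fun Φ => ?_, ?_⟩⟩
      · rw [e1, h1, ← hQ]
        have : (Q * P) ^ (n + 1) = Q * (P * (Q * P) ^ n) := by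
          rw [← mul_assoc, ← zpow_one_add]; congr 1; ring
        rw [this]; rfl
      · rw [e2, h2, zpow_add_one, mul_assoc ((s i * s k) ^ n)]

/-- words in two letters which return give relations -/
theorem walk_loop (nb : Fin (d + 1) → Fl → Fl) (s : Fin (d + 1) → W) (hs : ∀ k, s k * s k = 1)
    (hnb : ∀ k Φ, nb k (nb k Φ) = Φ) (hne : ∀ k Φ, nb k Φ ≠ Φ)
    (i j : Fin (d + 1))
    (hrel : ∀ Φ, ∀ m : ℕ, (fun Ψ => nb j (nb i Ψ))^[m] Φ = Φ → (s i * s j) ^ m = 1)
    (l : List (Fin (d + 1))) (hl : ∀ k ∈ l, k = i ∨ k = j) (Φ : Fl) (hΦ : walk nb l Φ = Φ) :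
    (l.map s).prod = 1 := by
  let P : Equiv.Perm Fl := ⟨nb i, nb i, hnb i, hnb i⟩
  let Q : Equiv.Perm Fl := ⟨nb j, nb j, hnb j, hnb j⟩
  have hPP : P * P = 1 := Equiv.ext fun Φ => hnb i Φ
  have hQQ : Q * Q = 1 := Equiv.ext fun Φ => hnb j Φ
  have hpow : ∀ m : ℕ, ∀ Φ, ((Q * P) ^ m) Φ = (fun Ψ => nb j (nb i Ψ))^[m] Φ := by
    intro m
    induction m with
    | zero => intro Φ; rfl
    | succ m ih => intro Φ; rw [pow_succ, Function.iterate_succ]; exact ih _
  obtain ⟨n, ⟨h1, h2⟩ | ⟨h1, h2⟩⟩ := norm_form nb s hs i j P Q (fun _ => rfl) (fun _ => rfl)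
    hPP hQQ l hl
  · rw [h2]
    have hfix : ((Q * P) ^ n) Φ = Φ := by rw [← h1, hΦ]
    have hfix' : ((Q * P) ^ n.natAbs) Φ = Φ := by
      rcases Int.natAbs_eq n with h | h
      · rw [h, zpow_natCast] at hfix; exact hfix
      · rw [h, zpow_neg, zpow_natCast, Equiv.Perm.inv_eq_iff_eq] at hfix
        exact hfix.symm
    have := hrel Φ n.natAbs (by rw [← hpow]; exact hfix')
    rcases Int.natAbs_eq n with h | h
    · rw [h, zpow_natCast]; exact this
    · rw [h, zpow_neg, zpow_natCast, this, inv_one]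
  · exfalso
    have hfix : (P * (Q * P) ^ n) Φ = Φ := by rw [← h1, hΦ]
    have hPi : P⁻¹ = P := inv_eq_of_mul_eq_one_right hPP
    have hQi : Q⁻¹ = Q := inv_eq_of_mul_eq_one_right hQQ
    have hinv : (Q * P)⁻¹ = P * Q := by rw [mul_inv_rev, hPi, hQi]
    have hconj : ∀ m : ℤ, (Q * P) ^ m * P = P * (Q * P) ^ (-m) := by
      intro m
      have h3 : P * (Q * P) * P⁻¹ = (Q * P)⁻¹ := by
        rw [hinv, hPi, mul_assoc, mul_assoc Q P P, hPP, mul_one]
      have h4 : P * (Q * P) ^ (-m) * P⁻¹ = (Q * P) ^ m := by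
        rw [← conj_zpow, h3, inv_zpow', neg_neg]
      rw [← h4, mul_assoc, inv_mul_cancel, mul_one]
    rcases Int.even_or_odd' n with ⟨t, h | h⟩
    · -- n = 2 t
      have h5 : P * (Q * P) ^ n = (Q * P) ^ (-t) * P * (Q * P) ^ t := by
        rw [hconj, neg_neg, mul_assoc, ← zpow_add]; congr 2; omega
      rw [h5] at hfix
      have h6 : P (((Q * P) ^ t) Φ) = ((Q * P) ^ t) Φ := by
        have h7 : ((Q * P) ^ t) (((Q * P) ^ (-t) * P * (Q * P) ^ t) Φ) = ((Q * P) ^ t) Φ := by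
          rw [hfix]
        rw [← Equiv.Perm.mul_apply, ← mul_assoc, ← mul_assoc, ← zpow_add, add_neg_cancel,
          zpow_zero, one_mul] at h7
        exact h7
      exact hne i _ h6
    · -- n = 2 t + 1
      have h5 : P * (Q * P) ^ n = (Q * P) ^ (-(t + 1)) * Q * (Q * P) ^ (t + 1) := by
        have h8 : (Q * P) ^ (-(t + 1)) * Q = P * (Q * P) ^ t := by
          have h9 : Q = (Q * P) * P := by rw [mul_assoc, hPP, mul_one]
          calc (Q * P) ^ (-(t + 1)) * Q = (Q * P) ^ (-(t + 1)) * ((Q * P) * P) := by rw [← h9]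
            _ = (Q * P) ^ (-t) * P := by
                rw [← mul_assoc, ← zpow_add_one]; congr 2; ring
            _ = P * (Q * P) ^ t := by rw [hconj, neg_neg]
        rw [h8, mul_assoc, ← zpow_add]; congr 2; omega
      rw [h5] at hfix
      have h6 : Q (((Q * P) ^ (t + 1)) Φ) = ((Q * P) ^ (t + 1)) Φ := by
        have h7 : ((Q * P) ^ (t + 1)) (((Q * P) ^ (-(t + 1)) * Q * (Q * P) ^ (t + 1)) Φ) =
            ((Q * P) ^ (t + 1)) Φ := by
          rw [hfix]
        rw [← Equiv.Perm.mul_apply, ← mul_assoc, ← mul_assoc, ← zpow_add, add_neg_cancel,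
          zpow_zero, one_mul] at h7
        exact h7
      exact hne j _ h6

end Loc2

open Loc2 in
theorem loc2_thm (hcell : S_CELL) (hucon : S_UCON) : S_LOC2 := by
  intro d Fl V X hd W _ s nb hsc x hx Φ hxΦ w
  classical
  obtain ⟨-, hmem, -, -, -, -, -, hloc, -, -, -⟩ := hcell d Fl V X
  obtain ⟨a, ha0, ha1, hxa⟩ := (hmem Φ x).1 hxΦ
  have hsymm : ∀ i A B, X.Adj i A B → X.Adj i B A :=
    fun i A B h => ⟨h.1.symm, fun j hj => (h.2 j hj).symm⟩
  have hnb : ∀ k Ψ, nb k (nb k Ψ) = Ψ := fun k Ψ =>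
    (hsc.uniq k _ _ (hsymm _ _ _ (hsc.nbadj k Ψ))).symm
  have hne : ∀ k Ψ, nb k Ψ ≠ Ψ := fun k Ψ => (hsc.nbadj k Ψ).1.symm
  -- the cells at `x`
  have hD : ∀ Ψ, x ∈ X.cell Ψ ↔ ∀ j, 0 < a j → X.L Φ j = X.L Ψ j := by
    intro Ψ
    constructor
    · intro h
      obtain ⟨b, hb0, hb1, hxb⟩ := (hmem Ψ x).1 h
      exact (X.t3 Φ Ψ a b ha0 hb0 ha1 hb1 (by rw [← hxa, ← hxb])).2
    · intro h
      refine (hmem Ψ x).2 ⟨a, ha0, ha1, ?_⟩
      rw [hxa]
      refine Finset.sum_congr rfl fun j _ => ?_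
      rcases (ha0 j).lt_or_eq with h' | h'
      · rw [h j h']
      · rw [← h', zero_smul, zero_smul]
  have hnbD : ∀ k, a k = 0 → ∀ Ψ, x ∈ X.cell Ψ → x ∈ X.cell (nb k Ψ) := by
    intro k hk Ψ hΨ
    rw [hD] at hΨ ⊢
    intro j hj
    have hjk : j ≠ k := by rintro rfl; rw [hk] at hj; exact lt_irrefl _ hj
    rw [hΨ j hj]
    exact (hsc.nbadj k Ψ).2 j hjk
  have hnbD' : ∀ k, ∀ Ψ, x ∈ X.cell Ψ → x ∈ X.cell (nb k Ψ) → a k = 0 := by
    intro k Ψ h1 h2
    by_contra hk
    have hk' : 0 < a k := lt_of_le_of_ne (ha0 k) (Ne.symm hk)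
    apply hne k Ψ
    apply X.inj
    funext j
    by_cases hj : j = k
    · subst hj
      rw [← (hD _).1 h1 j hk', ← (hD _).1 h2 j hk']
    · exact ((hsc.nbadj k Ψ).2 j hj).symm
  -- the zero coordinates are contained in a pair
  obtain ⟨i, j, hij, hJ⟩ : ∃ i j : Fin (d + 1), i ≠ j ∧ ∀ k, a k = 0 → k = i ∨ k = j := by
    have hcard : (Finset.univ.filter fun k => a k = 0).card ≤ 2 := by
      by_contra h
      exact hx ⟨Φ, a, ha0, ha1, hxa, by omega⟩
    obtain ⟨T, hT, hTc⟩ := Finset.exists_superset_card_eq hcard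
      (by rw [Fintype.card_fin]; omega)
    obtain ⟨i, j, hij, rfl⟩ := Finset.card_eq_two.1 hTc
    refine ⟨i, j, hij, fun k hk => ?_⟩
    have : k ∈ ({i, j} : Finset (Fin (d + 1))) := hT (by simp [hk])
    simpa using this
  have hloop : ∀ l : List (Fin (d + 1)), (∀ k ∈ l, a k = 0) → ∀ Ψ, walk nb l Ψ = Ψ →
      (l.map s).prod = 1 := fun l hl Ψ hΨ =>
    walk_loop nb s hsc.sq hnb hne i j (fun Φ m => hsc.rel Φ i j hij m) l
      (fun k hk => hJ k (hl k hk)) Ψ hΨ
  have hwell : ∀ l l' : List (Fin (d + 1)), (∀ k ∈ l, a k = 0) → (∀ k ∈ l', a k = 0) →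
      walk nb l Φ = walk nb l' Φ → (l.map s).prod = (l'.map s).prod := by
    intro l l' hl hl' h
    have h1 : walk nb (l ++ l'.reverse) Φ = Φ := by
      rw [walk_append, h, walk_reverse nb hnb]
    have h2 := hloop (l ++ l'.reverse) (by
      intro k hk
      rcases List.mem_append.1 hk with hk | hk
      · exact hl k hk
      · exact hl' k (List.mem_reverse.1 hk)) Φ h1
    rw [List.map_append, List.prod_append] at h2
    have h3 := prod_reverse s hsc.sq l'
    exact (mul_right_cancel (h2.trans h3.symm) : _)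
  -- connectivity
  obtain ⟨ε, hε, hball⟩ := hloc x
  have hreach : ∀ Ψ, x ∈ X.cell Ψ → ∃ l : List (Fin (d + 1)), (∀ k ∈ l, a k = 0) ∧
      walk nb l Φ = Ψ := by
    intro Ψ hΨ
    have hpath := hucon d Fl V X (by omega) (Metric.ball x ε) Metric.isOpen_ball
      (convex_ball x ε) Φ Ψ ⟨x, hxΦ, Metric.mem_ball_self hε⟩ ⟨x, hΨ, Metric.mem_ball_self hε⟩
    clear hΨ
    induction hpath with
    | refl => exact ⟨[], by simp, rfl⟩
    | tail _ hstep ih =>
      rename_i A B _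
      obtain ⟨l, hl, hlA⟩ := ih
      obtain ⟨⟨y, ⟨hyA, hyB⟩, hyU⟩, k, hk⟩ := hstep
      have hxA : x ∈ X.cell A := hball A ⟨y, hyA, hyU⟩
      have hxB : x ∈ X.cell B := hball B ⟨y, hyB, hyU⟩
      have hB : B = nb k A := hsc.uniq k A B hk
      refine ⟨l ++ [k], ?_, ?_⟩
      · intro k' hk'
        rcases List.mem_append.1 hk' with hk' | hk'
        · exact hl k' hk'
        · rw [List.mem_singleton] at hk'
          subst hk'
          exact hnbD' k' A hxA (hB ▸ hxB)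
      · rw [walk_append, hlA, hB]; rfl
  have hwalkD : ∀ l : List (Fin (d + 1)), (∀ k ∈ l, a k = 0) → ∀ Ψ, x ∈ X.cell Ψ →
      x ∈ X.cell (walk nb l Ψ) := by
    intro l
    induction l with
    | nil => intro _ Ψ h; exact h
    | cons k l ih =>
      intro hl Ψ h
      exact ih (fun k' hk' => hl k' (List.mem_cons_of_mem _ hk')) _
        (hnbD k (hl k (List.mem_cons_self ..)) Ψ h)
  -- the section
  let f : Fl → W := fun Ψ =>
    if h : ∃ l : List (Fin (d + 1)), (∀ k ∈ l, a k = 0) ∧ walk nb l Φ = Ψ then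
      w * ((Classical.choose h).map s).prod else 1
  have hf : ∀ l : List (Fin (d + 1)), (∀ k ∈ l, a k = 0) →
      f (walk nb l Φ) = w * (l.map s).prod := by
    intro l hl
    have h : ∃ l' : List (Fin (d + 1)), (∀ k ∈ l', a k = 0) ∧ walk nb l' Φ = walk nb l Φ :=
      ⟨l, hl, rfl⟩
    have hs := Classical.choose_spec h
    show (if h : ∃ l' : List (Fin (d + 1)), (∀ k ∈ l', a k = 0) ∧ walk nb l' Φ = walk nb l Φ then
      w * ((Classical.choose h).map s).prod else 1) = _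
    rw [dif_pos h, hwell _ _ hs.1 hl hs.2]
  refine ⟨f, ⟨⟨?_, ?_⟩, ?_⟩, ?_⟩
  · intro Ψ hΨ
    show (if h : ∃ l' : List (Fin (d + 1)), (∀ k ∈ l', a k = 0) ∧ walk nb l' Φ = Ψ then
      w * ((Classical.choose h).map s).prod else 1) = _
    rw [dif_neg]
    rintro ⟨l, hl, rfl⟩
    exact hΨ (hwalkD l hl Φ hxΦ)
  · intro Ψ k hΨ hkΨ
    have hk := hnbD' k Ψ hΨ hkΨ
    obtain ⟨l, hl, rfl⟩ := hreach Ψ hΨ
    have h1 : nb k (walk nb l Φ) = walk nb (l ++ [k]) Φ := by rw [walk_append]; rfl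
    rw [h1, hf _ (by
      intro k' hk'
      rcases List.mem_append.1 hk' with hk' | hk'
      · exact hl k' hk'
      · rw [List.mem_singleton] at hk'; subst hk'; exact hk), hf l hl]
    simp [mul_assoc]
  · have := hf [] (by simp)
    simpa [walk] using this
  · rintro g ⟨⟨hg1, hg2⟩, hgΦ⟩
    have hgl : ∀ l : List (Fin (d + 1)), (∀ k ∈ l, a k = 0) →
        g (walk nb l Φ) = w * (l.map s).prod := by
      intro l
      induction l using List.reverseRecOn with
      | nil => intro _; simpa [walk] using hgΦ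
      | append_singleton l k ih =>
        intro hl
        have hl' : ∀ k ∈ l, a k = 0 := fun k' hk' => hl k' (List.mem_append_left _ hk')
        have hk : a k = 0 := hl k (by simp)
        have h1 : walk nb (l ++ [k]) Φ = nb k (walk nb l Φ) := walk_append nb l [k] Φ
        have h2 := hwalkD l hl' Φ hxΦ
        rw [h1, hg2 _ k h2 (hnbD k hk _ h2), ih hl']
        simp [mul_assoc]
    funext Ψ
    by_cases hΨ : x ∈ X.cell Ψ
    · obtain ⟨l, hl, rfl⟩ := hreach Ψ hΨ
      rw [hgl l hl, hf l hl]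
    · rw [hg1 Ψ hΨ]
      show 1 = (if h : ∃ l' : List (Fin (d + 1)), (∀ k ∈ l', a k = 0) ∧ walk nb l' Φ = Ψ then
        w * ((Classical.choose h).map s).prod else 1)
      rw [dif_neg]
      rintro ⟨l, hl, rfl⟩
      exact hΨ (hwalkD l hl Φ hxΦ)

end TL
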