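import Pool.Agent.Helper22.TL.Spec

set_option autoImplicit false

/-! # TL, part UCON: chambers meeting a convex open set are connected by galleries in this set -/

namespace TL

open Set

theorem ucon_thm (hcell : S_CELL) (hconn : S_CONN) : S_UCON := by
  intro d Fl V X hd U hU hUc Φ Ψ hΦ hΨ
  obtain ⟨hcount, hmem, -, hcl, -, -, -, -, hclosed, -, hskel⟩ := hcell d Fl V X
  by_contra hcon
  set R : Fl → Fl → Prop := fun A B => (X.cell A ∩ X.cell B ∩ U).Nonempty ∧ ∃ i, X.Adj i A B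
    with hR
  set 𝒜 : Set Fl := {B | Relation.ReflTransGen R Φ B} with h𝒜
  obtain ⟨ι, A, hι, hAd, hAs⟩ := hskel 2
  obtain ⟨hpre, -⟩ := hconn d U ι A hι hU hUc hAd
  -- interior points of cells
  have hmeet : ∀ B : Fl, (X.cell B ∩ U).Nonempty →
      ((U \ ⋃ n, (A n : Set (E d))) ∩ X.cell B).Nonempty := by
    rintro B ⟨x, hxB, hxU⟩
    have h1 : (U ∩ interior (X.cell B)).Nonempty :=
      mem_closure_iff.1 (hcl B hxB) U hU hxU
    obtain ⟨y, hyU, hyB⟩ := h1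
    obtain ⟨ε, hε, hb⟩ := Metric.isOpen_iff.1 (hU.inter isOpen_interior) y ⟨hyU, hyB⟩
    obtain ⟨-, hne⟩ := hconn d (Metric.ball y ε) ι A hι Metric.isOpen_ball (convex_ball y ε) hAd
    obtain ⟨z, hz, hzA⟩ := hne ⟨y, Metric.mem_ball_self hε⟩
    exact ⟨z, ⟨(hb hz).1, hzA⟩, interior_subset (hb hz).2⟩
  have hcov : U \ ⋃ n, (A n : Set (E d)) ⊆
      (⋃ B ∈ 𝒜, X.cell B) ∪ (⋃ B ∈ 𝒜ᶜ, X.cell B) := by
    intro x _
    obtain ⟨B, hB⟩ := X.cov x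
    by_cases h : B ∈ 𝒜
    · exact Or.inl (mem_biUnion h hB)
    · exact Or.inr (mem_biUnion (show B ∈ 𝒜ᶜ from h) hB)
  have h1 : ((U \ ⋃ n, (A n : Set (E d))) ∩ ⋃ B ∈ 𝒜, X.cell B).Nonempty := by
    obtain ⟨y, hy, hyB⟩ := hmeet Φ hΦ
    exact ⟨y, hy, mem_biUnion (show Φ ∈ 𝒜 from Relation.ReflTransGen.refl) hyB⟩
  have h2 : ((U \ ⋃ n, (A n : Set (E d))) ∩ ⋃ B ∈ 𝒜ᶜ, X.cell B).Nonempty := by
    obtain ⟨y, hy, hyB⟩ := hmeet Ψ hΨ
    exact ⟨y, hy, mem_biUnion (show Ψ ∈ 𝒜ᶜ from hcon) hyB⟩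
  obtain ⟨y, ⟨hyU, hyA⟩, hy1, hy2⟩ :=
    isPreconnected_closed_iff.1 hpre _ _ (hclosed 𝒜) (hclosed 𝒜ᶜ) hcov h1 h2
  simp only [mem_iUnion, exists_prop] at hy1 hy2
  obtain ⟨B, hB, hyB⟩ := hy1
  obtain ⟨C, hC, hyC⟩ := hy2
  obtain ⟨a, ha0, ha1, hya⟩ := (hmem B y).1 hyB
  obtain ⟨b, hb0, hb1, hyb⟩ := (hmem C y).1 hyC
  obtain ⟨hab, hL⟩ := X.t3 B C a b ha0 hb0 ha1 hb1 (by rw [← hya, ← hyb])
  have hBC : B ≠ C := by rintro rfl; exact hC hB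
  have hz : (Finset.univ.filter fun i => a i = 0).card < 2 := by
    by_contra h
    push Not at h
    exact hyA (hAs ⟨B, a, ha0, ha1, hya, h⟩)
  -- some coordinate is zero
  have hi : ∃ i, a i = 0 := by
    by_contra h
    push Not at h
    exact hBC (X.inj B C (funext fun j => hL j (lt_of_le_of_ne (ha0 j) (h j).symm)))
  obtain ⟨i, hi⟩ := hi
  have hj : ∀ j, j ≠ i → X.L B j = X.L C j := by
    intro j hj
    apply hL j
    refine lt_of_le_of_ne (ha0 j) fun h => ?_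
    have : 1 < (Finset.univ.filter fun i => a i = 0).card :=
      Finset.one_lt_card.2 ⟨i, by simp [hi], j, by simp [h.symm], hj.symm⟩
    omega
  exact hC (Relation.ReflTransGen.tail hB ⟨⟨y, ⟨hyB, hyC⟩, hyU⟩, i, hBC, hj⟩)

end TL
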