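import Pool.Agent.Helper22.TL.Spec

set_option autoImplicit false

/-! # TL, part WALL: every wall belongs to exactly two chambers -/

namespace TL

open Set

variable {d : ℕ} {Fl V : Type}

/-- Two chambers with the same vertices off `i`, on the same side of the common wall, agree. -/
theorem wall_aux (X : Cx d Fl V) (hd : 1 ≤ d) (A B : Fl) (i : Fin (d + 1))
    (hAB : ∀ j, j ≠ i → X.L A j = X.L B j) (g : Fin (d + 1) → ℝ) (hg : ∑ j, g j = 1)
    (hp : X.pt (X.L A i) = ∑ j, g j • X.pt (X.L B j)) (hi : 0 < g i) : A = B := by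
  have hd0 : (0 : ℝ) < d := by exact_mod_cast hd
  -- a small parameter
  set M : ℝ := 1 + ∑ j, |g j| with hM
  have hM1 : 1 ≤ M := by
    have : 0 ≤ ∑ j, |g j| := Finset.sum_nonneg fun j _ => abs_nonneg _
    linarith
  have hgM : ∀ j, |g j| ≤ M - 1 := by
    intro j
    have : |g j| ≤ ∑ j, |g j| :=
      Finset.single_le_sum (f := fun j => |g j|) (fun j _ => abs_nonneg _) (Finset.mem_univ j)
    linarith
  set t : ℝ := 1 / (2 * d * M) with ht
  have hden : (0 : ℝ) < 2 * d * M := by positivity
  have ht0 : 0 < t := by positivity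
  have htM : t * M = 1 / (2 * d) := by
    rw [ht]; field_simp
  have htd : t * M * d = 1 / 2 := by
    rw [htM]; field_simp
  have ht1 : t ≤ 1 / 2 := by
    have h1 : t ≤ t * M * d := by
      have h2 : (1 : ℝ) ≤ M * d := by
        have : (1 : ℝ) ≤ d := by exact_mod_cast hd
        nlinarith
      nlinarith
    linarith
  have hpos : ∀ j, 0 < (1 - t) / d + t * g j := by
    intro j
    have h1 : -(M - 1) ≤ g j := by
      have := hgM j
      have := neg_abs_le (g j)
      linarith
    have h2 : (1 - t) / d - t * (M - 1) ≤ (1 - t) / d + t * g j := by nlinarith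
    have h3 : 0 < (1 - t) / d - t * (M - 1) := by
      rw [mul_sub, htM, mul_one]
      have h4 : (1 - t) / d - (1 / (2 * d) - t) = (1 / 2 - t) / d + t := by
        field_simp; ring
      rw [h4]
      have : 0 ≤ (1 / 2 - t) / d := div_nonneg (by linarith) hd0.le
      linarith
    linarith
  let a : Fin (d + 1) → ℝ := fun j => if j = i then t else (1 - t) / d
  let b : Fin (d + 1) → ℝ := fun j => (if j = i then 0 else (1 - t) / d) + t * g j
  have hcard : ((Finset.univ.erase i : Finset (Fin (d + 1))).card : ℝ) = d := by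
    rw [Finset.card_erase_of_mem (Finset.mem_univ i)]; simp
  have hsum1 : ∑ j : Fin (d + 1), (if j = i then (0 : ℝ) else (1 - t) / d) = 1 - t := by
    rw [← Finset.add_sum_erase _ _ (Finset.mem_univ i)]
    rw [if_pos rfl, zero_add, Finset.sum_congr rfl (g := fun _ => (1 - t) / d)]
    · rw [Finset.sum_const, nsmul_eq_mul, hcard]; field_simp
    · intro j hj; rw [if_neg (Finset.ne_of_mem_erase hj)]
  have ha1 : ∑ j, a j = 1 := by
    have h : ∀ j, a j = (if j = i then (0 : ℝ) else (1 - t) / d) + (if j = i then t else 0) := by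
      intro j; by_cases h : j = i <;> simp [a, h]
    rw [Finset.sum_congr rfl fun j _ => h j, Finset.sum_add_distrib, hsum1]
    simp
  have hb1 : ∑ j, b j = 1 := by
    simp only [b]
    rw [Finset.sum_add_distrib, hsum1, ← Finset.mul_sum, hg]; ring
  have ha0 : ∀ j, 0 < a j := by
    intro j
    by_cases h : j = i
    · simp [a, h, ht0]
    · simp only [a, if_neg h]
      exact div_pos (by linarith) hd0
  have hb0 : ∀ j, 0 ≤ b j := by
    intro j
    by_cases h : j = i
    · subst h
      simp only [b, if_true, zero_add]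
      positivity
    · simp only [b, if_neg h]
      exact (hpos j).le
  have heq : ∑ j, a j • X.pt (X.L A j) = ∑ j, b j • X.pt (X.L B j) := by
    have e1 : ∑ j, a j • X.pt (X.L A j) =
        ∑ j, (if j = i then (0 : ℝ) else (1 - t) / d) • X.pt (X.L B j) +
          t • X.pt (X.L A i) := by
      have h : ∀ j, a j • X.pt (X.L A j) =
          (if j = i then (0 : ℝ) else (1 - t) / d) • X.pt (X.L B j) +
            (if j = i then t • X.pt (X.L A i) else 0) := by
        intro j
        by_cases h : j = i
        · subst h; simp [a]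
        · simp [a, h, hAB j h]
      rw [Finset.sum_congr rfl fun j _ => h j, Finset.sum_add_distrib]
      congr 1
      simp
    have e2 : ∑ j, b j • X.pt (X.L B j) =
        ∑ j, (if j = i then (0 : ℝ) else (1 - t) / d) • X.pt (X.L B j) +
          t • ∑ j, g j • X.pt (X.L B j) := by
      rw [Finset.smul_sum, ← Finset.sum_add_distrib]
      refine Finset.sum_congr rfl fun j _ => ?_
      simp only [b]
      rw [add_smul, smul_smul]
    rw [e1, e2, hp]
  obtain ⟨-, h⟩ := X.t3 A B a b (fun j => (ha0 j).le) hb0 ha1 hb1 heq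
  exact X.inj A B (funext fun j => h j (ha0 j))

/-- Barycentric coordinates with respect to a chamber. -/
theorem bary_exists (X : Cx d Fl V) (Φ : Fl) (q : E d) :
    ∃ g : Fin (d + 1) → ℝ, ∑ j, g j = 1 ∧ q = ∑ j, g j • X.pt (X.L Φ j) := by
  have hspan : affineSpan ℝ (range fun j => X.pt (X.L Φ j)) = ⊤ := by
    rw [(X.aff Φ).affineSpan_eq_top_iff_card_eq_finrank_add_one]
    simp
  have hq : q ∈ affineSpan ℝ (range fun j => X.pt (X.L Φ j)) := by rw [hspan]; trivial
  obtain ⟨g, hg, hgq⟩ := eq_affineCombination_of_mem_affineSpan_of_fintype hq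
  refine ⟨g, hg, ?_⟩
  rw [hgq, Finset.affineCombination_eq_linear_combination _ _ _ hg]

/-- Barycentric coordinates are unique. -/
theorem bary_unique (X : Cx d Fl V) (Φ : Fl) (g h : Fin (d + 1) → ℝ) (hg : ∑ j, g j = 1)
    (hh : ∑ j, h j = 1) (heq : ∑ j, g j • X.pt (X.L Φ j) = ∑ j, h j • X.pt (X.L Φ j)) :
    g = h := by
  have := (affineIndependent_iff_eq_of_fintype_affineCombination_eq ℝ
    (fun j => X.pt (X.L Φ j))).1 (X.aff Φ) g h hg hh (by
      rw [Finset.affineCombination_eq_linear_combination _ _ _ hg,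
        Finset.affineCombination_eq_linear_combination _ _ _ hh]
      exact heq)
  exact this

theorem wall_thm (hcell : S_CELL) : S_WALL := by
  intro d Fl V X hd Φ i
  obtain ⟨-, hmem, -, -, -, -, -, hloc, -, -, -⟩ := hcell d Fl V X
  have hd0 : (0 : ℝ) < d := by exact_mod_cast hd
  have hcard : ((Finset.univ.erase i : Finset (Fin (d + 1))).card : ℝ) = d := by
    rw [Finset.card_erase_of_mem (Finset.mem_univ i)]; simp
  have hsum1 : ∀ c : ℝ, ∑ j : Fin (d + 1), (if j = i then (0 : ℝ) else c / d) = c := by
    intro c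
    rw [← Finset.add_sum_erase _ _ (Finset.mem_univ i)]
    rw [if_pos rfl, zero_add, Finset.sum_congr rfl (g := fun _ => c / d)]
    · rw [Finset.sum_const, nsmul_eq_mul, hcard]; field_simp
    · intro j hj; rw [if_neg (Finset.ne_of_mem_erase hj)]
  have hex : ∃ Ψ, X.Adj i Φ Ψ := by
    set a : Fin (d + 1) → ℝ := fun j => if j = i then 0 else 1 / d with ha
    set x : E d := ∑ j, a j • X.pt (X.L Φ j) with hx
    have ha1 : ∑ j, a j = 1 := hsum1 1
    have ha0 : ∀ j, 0 ≤ a j := by
      intro j
      by_cases h : j = i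
      · simp [a, h]
      · simp only [a, if_neg h]; positivity
    obtain ⟨ε, hε, hball⟩ := hloc x
    set v : E d := X.pt (X.L Φ i) - x with hv
    -- a small t
    obtain ⟨t, ht0, htv⟩ : ∃ t : ℝ, 0 < t ∧ t * ‖v‖ < ε := by
      refine ⟨ε / (‖v‖ + 1), by positivity, ?_⟩
      rw [div_mul_eq_mul_div, div_lt_iff₀ (by positivity)]
      nlinarith [norm_nonneg v]
    obtain ⟨Ψ, hΨ⟩ := X.cov (x - t • v)
    have hΨ' : x - t • v ∈ X.cell Ψ := hΨ
    have hxΨ : x ∈ X.cell Ψ := by
      apply hball
      refine ⟨x - t • v, hΨ', ?_⟩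
      rw [Metric.mem_ball, dist_eq_norm]
      have : x - t • v - x = -(t • v) := by abel
      rw [this, norm_neg, norm_smul, Real.norm_of_nonneg ht0.le]
      exact htv
    obtain ⟨b, hb0, hb1, hbx⟩ := (hmem Ψ x).1 hxΨ
    obtain ⟨hab, hL⟩ := X.t3 Φ Ψ a b ha0 hb0 ha1 hb1 (by rw [← hx, ← hbx])
    refine ⟨Ψ, ?_, ?_⟩
    · rintro rfl
      obtain ⟨c, hc0, hc1, hcx⟩ := (hmem Φ _).1 hΨ'
      -- coordinates of x - t v
      have hco : c = fun j => (1 + t) * a j - (if j = i then t else 0) := by
        apply bary_unique X Φ _ _ hc1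
        · rw [Finset.sum_sub_distrib, ← Finset.mul_sum, ha1]; simp
        · rw [← hcx]
          have : ∀ j, ((1 + t) * a j - (if j = i then t else 0)) • X.pt (X.L Φ j) =
              (1 + t) • (a j • X.pt (X.L Φ j)) - (if j = i then t • X.pt (X.L Φ i) else 0) := by
            intro j
            by_cases h : j = i
            · subst h; simp only [if_true]; rw [sub_smul, smul_smul]
            · simp only [if_neg h, sub_zero]; rw [smul_smul]
          rw [Finset.sum_congr rfl fun j _ => this j, Finset.sum_sub_distrib, ← Finset.smul_sum,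
            ← hx]
          simp only [Finset.sum_ite_eq', Finset.mem_univ, if_true]
          rw [hv, smul_sub, add_smul, one_smul]
          abel
      have h1 := hc0 i
      rw [hco] at h1
      simp only [a, if_true, mul_zero, zero_sub] at h1
      linarith
    · intro j hj
      apply hL j
      simp only [a, if_neg hj]
      positivity
  -- negative coordinate of the other vertex
  have hneg : ∀ Ψ, X.Adj i Φ Ψ → ∀ g : Fin (d + 1) → ℝ, ∑ j, g j = 1 →
      X.pt (X.L Ψ i) = ∑ j, g j • X.pt (X.L Φ j) → g i < 0 := by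
    intro Ψ hΨ g hg hgp
    rcases lt_trichotomy (g i) 0 with h | h | h
    · exact h
    · exfalso
      -- the vertices of Ψ would be affinely dependent
      have e : (fun j => if j = i then (1 : ℝ) else 0) = g := by
        apply bary_unique X Ψ
        · simp
        · exact hg
        · have : ∀ j, (if j = i then (1 : ℝ) else 0) • X.pt (X.L Ψ j) =
              if j = i then X.pt (X.L Ψ i) else 0 := by
            intro j; by_cases h : j = i
            · subst h; simp
            · simp [h]
          rw [Finset.sum_congr rfl fun j _ => this j]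
          simp only [Finset.sum_ite_eq', Finset.mem_univ, if_true]
          rw [hgp]
          refine Finset.sum_congr rfl fun j _ => ?_
          by_cases hj : j = i
          · subst hj; rw [h]; simp
          · rw [hΨ.2 j hj]
      have := congrFun e i
      simp only [if_true] at this
      linarith
    · exact absurd (wall_aux X hd Ψ Φ i (fun j hj => (hΨ.2 j hj).symm) g hg hgp h)
        (fun h => hΨ.1 h.symm)
  obtain ⟨Ψ, hΨ⟩ := hex
  refine ⟨Ψ, hΨ, ?_⟩
  intro Ψ' hΨ'
  obtain ⟨c, hc1, hcp⟩ := bary_exists X Φ (X.pt (X.L Ψ i))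
  obtain ⟨c', hc1', hcp'⟩ := bary_exists X Φ (X.pt (X.L Ψ' i))
  have hci := hneg Ψ hΨ c hc1 hcp
  have hci' := hneg Ψ' hΨ' c' hc1' hcp'
  -- coordinates of the vertex of Ψ' with respect to Ψ
  set r : ℝ := c' i / c i with hr
  have hr0 : 0 < r := div_pos_of_neg_of_neg hci' hci
  have hrc : r * c i = c' i := div_mul_cancel₀ _ hci.ne
  apply wall_aux X hd Ψ' Ψ i (fun j hj => (hΨ'.2 j hj).symm.trans (hΨ.2 j hj))
    (fun j => (c' j - r * c j) + if j = i then r else 0)
  · rw [Finset.sum_add_distrib, Finset.sum_sub_distrib, ← Finset.mul_sum, hc1, hc1']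
    simp
  · have h1 : ∀ j, ((c' j - r * c j) + if j = i then r else 0) • X.pt (X.L Ψ j) =
        (c' j • X.pt (X.L Φ j) - r • (c j • X.pt (X.L Φ j))) +
          (if j = i then r • X.pt (X.L Ψ i) else 0) := by
      intro j
      by_cases h : j = i
      · subst h
        simp only [if_true]
        rw [← hrc, sub_self, zero_add, smul_smul, sub_self, zero_add]
      · simp only [if_neg h, add_zero]
        rw [← hΨ.2 j h, sub_smul, smul_smul]
    rw [Finset.sum_congr rfl fun j _ => h1 j, Finset.sum_add_distrib, Finset.sum_sub_distrib,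
      ← Finset.smul_sum, ← hcp, ← hcp']
    simp only [Finset.sum_ite_eq', Finset.mem_univ, if_true]
    abel
  · simp only [if_true]
    rw [hrc]; linarith

end TL
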